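import Pool.Agent.Results.MP_295d38_ag.EndomorphismsOfLinePowers
import Pool.Agent.X174.WinBox

/-!
# Dynamical Mordell-Lang for ALL endomorphisms of powers of the projective line with coefficients in cubes

Let `N ≥ 1`, let `d 0, ..., d (N-1) ≥ 1` be any degrees and let `L ⊂ ℂ` be a finitely generated field. There is `δ > 0` such
that for every sequence `v ≥ 1` of exponent of convergence at most `τ` (for `v_i = (i + 1) ^ a` this is `1 / a`, for
`v_i = b ^ i` it is `0`) and every `ρ < 1`, outside a set of `x ∈ ℝ^M`, `M = ∑ 2 (d j + 1)`, of Hausdorff dimension at most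
`(M - δ + τ) / (1 - ρ)` the following holds for all but finitely many `i`: for ALL `N`-tuples of rational functions `f_j` of
degree `d j` with integral coefficients in the cube with centre `x v_i` and side `2 v_i ^ ρ` and all self-maps `s` of the
index set, the self-map `(P_j) ↦ (f_j (P_(s j)))` of `(ℙ^1)^N` has the Dynamical Mordell-Lang property for all points over
`L` and all closed subvarieties over `ℂ`.

The proportion of exceptions is from the starting result `EndomorphismsOfLinePowers`.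
-/

set_option autoImplicit false

namespace Pool.Agent.Results.MP_295d38_ag.LinePowersInCubes

open EndomorphismsOfLinePowers (Idx DMLOver)

/-- the exponent of convergence of the sequence `v` is at most `τ` -/
def ExpLe (v : ℕ → ℝ) (τ : ℝ) : Prop := ∀ t : ℝ, τ < t → Summable (fun n : ℕ => (v n) ^ (-t))

/-- **Theorem.** Let `N ≥ 1`, `d 0, ..., d (N-1) ≥ 1`, `M = ∑ 2 (d j + 1)` and let `L ⊂ ℂ` be a finitely generated field.
There is `δ > 0` such that for every sequence `v ≥ 1` of exponent of convergence at most `τ ≥ 0` and every `ρ < 1` there is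
a set `E ⊂ ℝ^M` of Hausdorff dimension at most `(M - δ + τ) / (1 - ρ)` with: for each `x` outside `E`, for all but finitely
many `i`, for ALL integral vectors `w` which differ in each coordinate from `v_i x` by at most `v_i ^ ρ`, and all self-maps
`s` of the index set, the self-map `(P_j) ↦ (f_j (P_(s j)))` of `(ℙ^1)^N` (`f_j` the rational function of degree `d j` with
coefficients `w`) has the Dynamical Mordell-Lang property for all points over `L` and all closed subvarieties over `ℂ`. The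
sequences `v_i = (i + 1) ^ a` and `v_i = b ^ i` have exponent of convergence at most `1 / a` and `0`. -/
theorem result :
    (∀ (N : ℕ), 1 ≤ N → ∀ (d : Fin N → ℕ), (∀ j, 1 ≤ d j) → ∀ (S : Finset ℂ), ∃ δ : ℝ, 0 < δ ∧
      ∀ (v : ℕ → ℝ) (τ ρ : ℝ), (∀ i, 1 ≤ v i) → 0 ≤ τ → ExpLe v τ → ρ < 1 →
      ∃ E : Set (Idx N d → ℝ),
        dimH E ≤ ENNReal.ofReal ((((∑ j, 2 * (d j + 1) : ℕ) : ℝ) - δ + τ) / (1 - ρ)) ∧
        ∀ x : Idx N d → ℝ, x ∉ E → ∃ i₀ : ℕ, ∀ i : ℕ, i₀ ≤ i →
          ∀ w : Idx N d → ℤ, (∀ q, |(w q : ℝ) - x q * v i| ≤ (v i) ^ ρ) →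
            ∀ s : Fin N → Fin N, DMLOver (Subfield.closure (S : Set ℂ)) s w) ∧
    (∀ a : ℝ, 0 < a → ExpLe (fun n : ℕ => ((n : ℝ) + 1) ^ a) (1 / a)) ∧
    (∀ b : ℝ, 1 < b → ExpLe (fun n : ℕ => b ^ n) 0) := by
  refine ⟨fun N hN d hd S => ?_, fun κ hκ => Pool.Agent.Y854.GM.expLe_pow κ hκ,
    fun b hb => Pool.Agent.Y854.GM.expLe_geom b hb⟩
  classical
  obtain ⟨δ, hδ, H₀, hH⟩ := EndomorphismsOfLinePowers.result N d hd S
  have h2 : Fintype.card (Idx N d) = ∑ j, 2 * (d j + 1) := by
    simp [Fintype.card_sigma, Fintype.card_prod, Fintype.card_fin]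
  have h1 : 1 ≤ Fintype.card (Idx N d) :=
    Fintype.card_pos_iff.2 ⟨⟨⟨0, hN⟩, (0, 0)⟩⟩
  refine ⟨min δ (1 / 2), lt_min hδ (by norm_num), fun v τ ρ hv hτ hE hρ => ?_⟩
  obtain ⟨E, hE1, hE2⟩ := Pool.Agent.X174.winBox (κ := Idx N d) h1
    (fun w => ∀ s : Fin N → Fin N, DMLOver (Subfield.closure (S : Set ℂ)) s w) hδ H₀
    (fun H hH₀ => by
      have h3 := hH H hH₀ 0
      simp only [Pi.zero_apply, sub_zero] at h3
      exact h3) hv hτ hE hρ
  refine ⟨E, ?_, hE2⟩
  rw [h2] at hE1
  exact hE1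

end Pool.Agent.Results.MP_295d38_ag.LinePowersInCubes
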