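import Pool.Agent.X295.DynC

/-!
# MP_295d38_ag: the dynamical Mordell-Lang conjecture for families with several parameters and
preperiodic divisors

**Families.** Let `F_{u,0}, …, F_{u,N}` be forms of degree `d` in `N + 1` variables, let `x_u` be a
point with coordinates `x_0(u), …, x_N(u)`, and let `V_u ⊂ ℙ^N` be the closed set defined by forms
`G_{u,k}`, `k ∈ κ` (`κ` finite), all coefficients being complex polynomials in `q` parameters
`u = (u_1, …, u_q)`. So `F_u` is a `q`-parameter family of rational self-maps of `ℙ^N`. It can be a
family of endomorphisms of `ℙ^N`, or a family of polynomial self-maps of the affine space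
(`F_{u,0} = X_0^d`), hence of affine varieties. For `u ∈ ℂ^q` let `R_u` (`returnSet`) be the set of
the `n` such that the `n`-th iterate of `x_u` is a point of `V_u`.

**Theorem.** Let `D_1, …, D_M ⊂ 𝔸^q` be irreducible hypersurfaces, defined by irreducible
polynomials `h_l` with algebraic coefficients, such that for all complex points `u` of the `D_l` the
orbit of `x_u` under `F_u` is finite (`FiniteOrbit`: two iterates in the cone are proportional; the
orbit need not be defined). Let `a_l` be complex points of the `D_l` such that the orbits of the
`x_{a_l}` are defined (no iterate is zero). Suppose that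

* the intersection of the sets `R_{a_1}, …, R_{a_M}` is finite, or
* for some `l` the matrix of the partial derivatives of the `F_{a_l, i}` is invertible at the
  iterates of `x_{a_l}` from some index on (that is, `F_{a_l}` is étale at the points of the cycle).

Then for all `ε > 0` all but `O(H^{q - 1 + ε})` of the more than `H^q` integral vectors `u` with
`|u_j| ≤ H` have the following properties: the orbit of `x_u` under `F_u` is defined, `R_u` is a finite
union of arithmetic progressions, and `R_u ⊆ R_{a_l}` for all `l`.

So the dynamical Mordell-Lang conjecture holds for almost all `F_u`, `x_u`, `V_u`, with a power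
saving, and in a uniform way. For example (`M = 1`) let the orbits of `x_u` be finite for all `u` with
`u_1 = 0`, and let `V_a` not meet the cycle of the orbit for one such parameter `a`. Then for almost
all integral vectors `u` the set `R_u` is contained in the finite set `R_a`, and is empty if
`V_a` does not meet the orbit of `x_a`. No condition on the ramification of the maps is needed. If
the orbits are finite for all `u` with `u_1 u_2 = 0` then it suffices that no infinite arithmetic
progression is contained in the return sets of one parameter with `u_1 = 0` and one with `u_2 = 0`.

The result `AlgebraicPreperiodicMembers` concerns families with one parameter (`q = 1`, the `D_l`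
are points). On lines in `𝔸^q` it gives exceptional sets which are small for each line but not
uniformly in the line, so no bound for the number of exceptions in a box, and it compares `R_u` with
the return sets of the intersections of the line and the `D_l`, which depend on the line.

The proof: (1) as `D_l` has points outside of countably many given proper closed subsets, two
iterates with given numbers `n₀`, `n₀ + m` are proportional at all points of `D_l`. (2) Let `p` be a
large prime divisor of the value at `u` of the norm of `h_l`, and not of the value of a polynomial
`ρ ≠ 0` in all but one variable, which is given by elimination of that variable from `h_l` and the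
product of the coordinates and the values of the forms (and the determinants, if étale) of the first
`n₀ + m` iterates which are different from zero at `a_l`. Then there is an embedding of `ℂ` into the
algebraic closure of `ℚ_p` for which all data are integral, `h_l(u)` is not a unit and the value of the
product at `u` is a unit: so the reduction of the orbit of `x_u` is preperiodic and meets the
reduction of `V_u` only for `n ∈ R_{a_l}`. (3) The other `u` are counted on lines.
-/

set_option autoImplicit false

open MvPolynomial Pool.Agent.H936R2 Pool.Agent.Y199.DM Pool.Agent.X295.Dyn

namespace Pool.Agent.Results.MP_295d38_ag.PreperiodicDivisors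

/-- The set `R_u`. -/
def returns {q N : ℕ} {κ : Type}
    (F : Fin (N + 1) → MvPolynomial (Fin (N + 1)) (MvPolynomial (Fin q) ℂ))
    (x : Fin (N + 1) → MvPolynomial (Fin q) ℂ)
    (G : κ → MvPolynomial (Fin (N + 1)) (MvPolynomial (Fin q) ℂ)) (u : Fin q → ℂ) : Set ℕ :=
  returnSet (member F u) (start x u) (member G u)

/-- **The dynamical Mordell-Lang conjecture for almost all integral parameters of a family with
several parameters and preperiodic divisors.** -/
theorem result {q N d M : ℕ} {κ : Type} [Finite κ]
    (F : Fin (N + 1) → MvPolynomial (Fin (N + 1)) (MvPolynomial (Fin q) ℂ))
    (hF : ∀ i, (F i).IsHomogeneous d) (x : Fin (N + 1) → MvPolynomial (Fin q) ℂ)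
    (G : κ → MvPolynomial (Fin (N + 1)) (MvPolynomial (Fin q) ℂ)) (e : κ → ℕ)
    (hG : ∀ k, (G k).IsHomogeneous (e k))
    (h : Fin M → MvPolynomial (Fin q) ℂ) (hirr : ∀ l, Irreducible (h l))
    (halg : ∀ l μ, IsAlgebraic ℚ ((h l).coeff μ))
    (hper : ∀ l (u : Fin q → ℂ), eval u (h l) = 0 → FiniteOrbit (member F u) (start x u))
    (a : Fin M → Fin q → ℂ) (ha : ∀ l, eval (a l) (h l) = 0)
    (hne : ∀ l n, (pt (member F (a l)))^[n] (start x (a l)) ≠ 0)
    (hfin : (⋂ l, returns F x G (a l)).Finite ∨
      ∃ l, EventuallyEtale (member F (a l)) (start x (a l))) {ε : ℝ} (hε : 0 < ε) :
    ∃ C : ℝ, ∀ H : ℕ, 1 ≤ H → (({u : Fin q → ℤ | (∀ j, |u j| ≤ H) ∧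
      ¬ ((∀ n, (pt (member F fun j => (u j : ℂ)))^[n] (start x fun j => (u j : ℂ)) ≠ 0) ∧
        IsFiniteUnionOfAP (returns F x G fun j => (u j : ℂ)) ∧
        ∀ l, (returns F x G fun j => (u j : ℂ)) ⊆ returns F x G (a l))}).ncard : ℝ) ≤
      C * (H : ℝ) ^ ((q : ℝ) - 1 + ε) :=
  returns_family F hF x G e hG h hirr halg hper a ha hne hfin hε

end Pool.Agent.Results.MP_295d38_ag.PreperiodicDivisors
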