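import Pool.Agent.X159.DQ.Int

/-!
# The dynamical Mordell-Lang conjecture: reduction to the recurrences `z(n+1) = B (z_j(n) ^ 2)_j`

For an integral matrix `B = (B_ij)`, `0 ≤ i, j ≤ M`, let `S_B` be the self-map
`z ↦ (∑_j B_ij z_j ^ 2)_i` of the affine space `𝔸 ^ (M + 1)`. We prove that the dynamical
Mordell-Lang conjecture (all quasiprojective varieties `X ⊆ ℙ ^ N` over `ℂ`, all endomorphisms `Φ`
of `X`, all closed `V ⊆ X`, all points) is equivalent to its special case of the maps `S_B` and of the
hyperplane `z_0 = 0`: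

> for all integral square matrices `B` and all complex vectors `z` the set of the `n` such that the
> first coordinate of `S_B ^ n (z)` is zero is a finite union of arithmetic progressions.

More precisely, every return set `{n : Φ ^ n (α) ∈ V}` is a finite intersection of sets
`{n : (S_B ^ (K (n + 1)) (z))_0 = 0}`. If `X`, `Φ`, `α` and `V` are defined over a subfield `k` of `ℂ`
then the `z` can be taken over `k`; so the conjecture over `k` is equivalent to the
statement for the `z` over `k`. If `k` is algebraic over `ℚ` it is equivalent to the statement for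
the integral `z`; in particular the conjectures over `ℚ` and over the field of all algebraic numbers
are equivalent, and both are statements on sequences of integers.

The proof.

1. (Jouanolou's trick.) Let `X'` be the affine variety of the pairs of an idempotent matrix of rank
   one with image a point of `X`, and of coefficients `h` with `∑ h_b b(x) = 1`, where the `b` are
   forms whose common zeros are the points which are to be left out. By the Nullstellensatz (twice)
   every endomorphism `Φ` of `X` lifts to a polynomial self-map of the affine space which maps `X'`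
   to itself: if `Φ = F_x` where `g_x ≠ 0`, `∑ c_(x,j,i) g_x F_(x,i) = 1` at the columns `j` of
   the points of `X'`, then the columns of the matrix `(∑ c_(x,j,i) g_x F_(x,l))_(l,i)` are multiples of
   `Φ`, and its trace is `1`.
2. The coefficients become coordinates of the point; so the polynomials have integral coefficients.
3. The value of a polynomial becomes a new coordinate.
4. A polynomial map of degree `≤ 2 ^ k` becomes the `(k + 1)`-st iterate of a map whose coordinates are
   products of two linear forms: the blocks `0, …, k` hold the monomials of degree `≤ 2 ^ s`, and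
   all blocks are moved to the next one at the same time.
5. `4 l m = (l + m) ^ 2 - (l - m) ^ 2`; the coordinates `l + m`, `l - m` give `S_B`.
-/

set_option autoImplicit false

namespace Pool.Agent.Results.MP_295d38_ag.QuadraticRecurrences

open MvPolynomial Pool.Agent.X159.DQ

/-- **The dynamical Mordell-Lang conjecture is equivalent to its case of the maps
`z ↦ (∑_j B_ij z_j ^ 2)_i` of affine spaces, `B` an integral matrix, and of the hyperplane `z_0 = 0`.**

(1) The left hand side is the conjecture (for `X` locally closed in a complex projective space, `Φ` a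
regular self-map of `X`, `α` a point of `X`, `V` closed).
(2) The same over a subfield `k` of `ℂ`: `DMLover k` is the conjecture for all `X`, `Φ`, `V` defined
over `k` and all `k`-rational points (`IsDatum k N X Φ α V`).
(3) If `k` is algebraic over `ℚ` (for example `ℚ`, a number field, the field of all algebraic numbers)
it is enough, and necessary, to consider integral vectors `z`.
(4) Every return set over `k` is the intersection of finitely many sets of the `n` such that
the first coordinate of the `K (n + 1)`-st iterate of `z` under such a map is zero. Here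
`sqm B z = fun i => ∑ j, B i j * z j ^ 2`.
-/
theorem result :
    -- (1)
    ((∀ (N : ℕ) (X : Set (Projectivization ℂ (Fin (N + 1) → ℂ))),
      (∃ A B : Set (MvPolynomial (Fin (N + 1)) ℂ),
        (∀ F ∈ A, ∃ d : ℕ, F.IsHomogeneous d) ∧ (∀ F ∈ B, ∃ d : ℕ, F.IsHomogeneous d) ∧
        ∀ p : Projectivization ℂ (Fin (N + 1) → ℂ), p ∈ X ↔
          ((∀ F ∈ A, MvPolynomial.eval p.rep F = 0) ∧ ∃ F ∈ B, MvPolynomial.eval p.rep F ≠ 0)) →
      ∀ Φ : Projectivization ℂ (Fin (N + 1) → ℂ) → Projectivization ℂ (Fin (N + 1) → ℂ),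
        (∀ x ∈ X, Φ x ∈ X) →
        (∀ x ∈ X, ∃ (d e : ℕ) (F : Fin (N + 1) → MvPolynomial (Fin (N + 1)) ℂ)
            (g : MvPolynomial (Fin (N + 1)) ℂ),
            (∀ i, (F i).IsHomogeneous d) ∧ g.IsHomogeneous e ∧ MvPolynomial.eval x.rep g ≠ 0 ∧
            ∀ y ∈ X, MvPolynomial.eval y.rep g ≠ 0 →
              (fun i : Fin (N + 1) => MvPolynomial.eval y.rep (F i)) ≠ 0 ∧
              (fun i : Fin (N + 1) => MvPolynomial.eval y.rep (F i)) ∈ (Φ y).submodule) →
        ∀ α ∈ X, ∀ V : Set (Projectivization ℂ (Fin (N + 1) → ℂ)),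
          (∃ C : Set (MvPolynomial (Fin (N + 1)) ℂ),
            (∀ F ∈ C, ∃ d : ℕ, F.IsHomogeneous d) ∧
            ∀ p : Projectivization ℂ (Fin (N + 1) → ℂ),
              p ∈ V ↔ ∀ F ∈ C, MvPolynomial.eval p.rep F = 0) →
          ∃ T : Finset (ℕ × ℕ),
            {n : ℕ | Φ^[n] α ∈ V} = {n : ℕ | ∃ t ∈ T, ∃ k : ℕ, n = t.1 + t.2 * k}) ↔
      ∀ (M : ℕ) (B : Matrix (Fin (M + 1)) (Fin (M + 1)) ℤ) (z : Fin (M + 1) → ℂ),
        ∃ T : Finset (ℕ × ℕ),
          {n : ℕ | (fun (w : Fin (M + 1) → ℂ) i => ∑ j, (B i j : ℂ) * w j ^ 2)^[n] z 0 = 0} =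
            {n : ℕ | ∃ t ∈ T, ∃ k : ℕ, n = t.1 + t.2 * k}) ∧
    -- (2)
    (∀ (k : Type) [Field k] [Algebra k ℂ], DMLover k ↔
      ∀ (M : ℕ) (B : Matrix (Fin (M + 1)) (Fin (M + 1)) ℤ) (z : Fin (M + 1) → k),
        ∃ T : Finset (ℕ × ℕ),
          {n : ℕ | (fun (w : Fin (M + 1) → k) i => ∑ j, (B i j : k) * w j ^ 2)^[n] z 0 = 0} =
            {n : ℕ | ∃ t ∈ T, ∃ k : ℕ, n = t.1 + t.2 * k}) ∧
    -- (3)
    (∀ (k : Type) [Field k] [Algebra k ℂ] [Algebra ℚ k] [Algebra.IsAlgebraic ℚ k], DMLover k ↔
      ∀ (M : ℕ) (B : Matrix (Fin (M + 1)) (Fin (M + 1)) ℤ) (z : Fin (M + 1) → ℤ),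
        ∃ T : Finset (ℕ × ℕ),
          {n : ℕ | (fun (w : Fin (M + 1) → ℤ) i => ∑ j, B i j * w j ^ 2)^[n] z 0 = 0} =
            {n : ℕ | ∃ t ∈ T, ∃ k : ℕ, n = t.1 + t.2 * k}) ∧
    -- (4)
    ∀ (k : Type) [Field k] [Algebra k ℂ] (N : ℕ) (X : Set (PP N)) (Φ : PP N → PP N)
      (α : PP N) (V : Set (PP N)), IsDatum k N X Φ α V →
      ∃ (r : ℕ) (K M : Fin r → ℕ) (B : ∀ t, Fin (M t + 1) → Fin (M t + 1) → ℤ)
        (z : ∀ t, Fin (M t + 1) → k), (∀ t, 0 < K t) ∧
        {n : ℕ | Φ^[n] α ∈ V} = ⋂ t, {n : ℕ | (sqm (B t))^[K t * (n + 1)] (z t) 0 = 0} := by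
  refine ⟨?_, fun k _ _ => dml_iff k, fun k _ _ _ _ => ?_, ?_⟩
  · refine Iff.trans ?_ (dml_iff ℂ)
    constructor
    · rintro h N X Φ α V ⟨hX, hΦX, hΦ, hα, -, hV⟩
      exact h N X hX Φ hΦX hΦ α hα V hV
    · intro h N X hX Φ hΦX hΦ α hα V hV
      refine h N X Φ α V ⟨hX, hΦX, hΦ, hα, ⟨α.rep, α.rep_nonzero, ?_⟩, hV⟩
      rw [Projectivization.submodule_eq]
      exact Submodule.mem_span_singleton_self _
  · rw [dml_alg_iff k]
    simp only [SqAP, IsAP, sqm, Int.cast_id]
    rfl
  · intro k _ _ N X Φ α V h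
    obtain ⟨r, K, M, B, z, hK, hn⟩ := return_set k N X Φ α V h
    refine ⟨r, K, M, B, z, hK, ?_⟩
    ext n
    simp only [Set.mem_iInter]
    exact hn n

end Pool.Agent.Results.MP_295d38_ag.QuadraticRecurrences
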